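import Mathlib
import Pool.Agent.H220.F4.Stm

/-!
S_ps1 (helper282 for helper220): the complex Hessian of `(1/2s) log (|w|² + e^{2s(|z|²-1)})`.
-/

set_option autoImplicit false
set_option maxHeartbeats 1000000

open MeasureTheory Metric Set Filter Topology Matrix
open scoped ContDiff ComplexOrder

namespace Pool.Agent.H282.F4

open Pool.Agent.H805R2 Pool.Agent.H805R2.Gram Pool.Agent.H220.F4

/-- coordinates -/
noncomputable def Zc (i : Fin 2) : SR 2 := mkS (fun z => z i) (by fun_prop)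

/-- conjugate coordinates -/
noncomputable def Zb (i : Fin 2) : SR 2 :=
  mkS (fun z => star (z i)) (by
    have h : ContDiff ℝ ∞ fun z : Cn 2 => z i := by fun_prop
    exact (Complex.conjCLE.contDiff).comp h)

lemma fn_Zc (i : Fin 2) (z : Cn 2) : fn (Zc i) z = z i := rfl
lemma fn_Zb (i : Fin 2) (z : Cn 2) : fn (Zb i) z = star (z i) := rfl

/-- the coordinate as a real linear map -/
noncomputable def cl (i : Fin 2) : Cn 2 →L[ℝ] ℂ :=
  (EuclideanSpace.proj i : Cn 2 →L[ℂ] ℂ).restrictScalars ℝ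

lemma cl_apply (i : Fin 2) (z : Cn 2) : cl i z = z i := rfl

lemma Dv_Zc (v : Cn 2) (i : Fin 2) (z : Cn 2) : fn (Dv v (Zc i)) z = v i := by
  rw [Dv_apply]
  have h : fn (Zc i) = fun z => cl i z := rfl
  rw [h, (cl i).hasFDerivAt.fderiv]
  rfl

lemma Dv_Zb (v : Cn 2) (i : Fin 2) (z : Cn 2) : fn (Dv v (Zb i)) z = star (v i) := by
  rw [Dv_apply]
  have h : fn (Zb i) = fun z => ((Complex.conjCLE : ℂ →L[ℝ] ℂ).comp (cl i)) z := rfl
  rw [h, ((Complex.conjCLE : ℂ →L[ℝ] ℂ).comp (cl i)).hasFDerivAt.fderiv]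
  rfl

lemma bas_apply (i j : Fin 2) : (bas j : Cn 2) i = if i = j then 1 else 0 := by
  simp [bas]

lemma Ibas_apply (i j : Fin 2) : (Complex.I • bas j : Cn 2) i = if i = j then Complex.I else 0 := by
  have : (Complex.I • bas j : Cn 2) i = Complex.I * (bas j : Cn 2) i := rfl
  rw [this, bas_apply]
  split_ifs <;> simp

lemma Dh_Zc (i j : Fin 2) : Dh j (Zc i) = if i = j then 1 else 0 := by
  apply fn_ext
  intro z
  rw [Dh_def, fn_smul, fn_sub, fn_smul, Dv_Zc, Dv_Zc, bas_apply, Ibas_apply]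
  split_ifs with h
  · rw [fn_one, Complex.I_mul_I]; norm_num
  · rw [fn_zero]; simp

lemma Db_Zc (i j : Fin 2) : Db j (Zc i) = 0 := by
  apply fn_ext
  intro z
  rw [Db_def, fn_smul, fn_add, fn_smul, Dv_Zc, Dv_Zc, bas_apply, Ibas_apply, fn_zero]
  split_ifs with h
  · rw [Complex.I_mul_I]; norm_num
  · simp

lemma Dh_Zb (i j : Fin 2) : Dh j (Zb i) = 0 := by
  apply fn_ext
  intro z
  rw [Dh_def, fn_smul, fn_sub, fn_smul, Dv_Zb, Dv_Zb, bas_apply, Ibas_apply, fn_zero]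
  split_ifs with h
  · simp
  · simp

lemma Db_Zb (i j : Fin 2) : Db j (Zb i) = if i = j then 1 else 0 := by
  apply fn_ext
  intro z
  rw [Db_def, fn_smul, fn_add, fn_smul, Dv_Zb, Dv_Zb, bas_apply, Ibas_apply]
  split_ifs with h
  · rw [fn_one]
    simp
    norm_num
  · rw [fn_zero]; simp

/-- chain rule for the exponential -/
lemma Dv_exp (u e : Cn 2 → ℝ) (hu : ContDiff ℝ ∞ u) (he : ContDiff ℝ ∞ e)
    (hue : ∀ z, e z = Real.exp (u z)) (v : Cn 2) :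
    Dv v (toSm e he) = toSm e he * Dv v (toSm u hu) := by
  apply fn_ext
  intro z
  rw [fn_mul, Dv_apply, Dv_apply]
  have hd : DifferentiableAt ℝ u z := (hu.differentiable (by simp)).differentiableAt
  have hd' : DifferentiableAt ℝ e z := (he.differentiable (by simp)).differentiableAt
  have h1 : fn (toSm e he) = fun z => (e z : ℂ) := rfl
  have h2 : fn (toSm u hu) = fun z => (u z : ℂ) := rfl
  rw [h1, h2, fderiv_ofReal z v hd, fderiv_ofReal z v hd']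
  have h3 : e = fun z => Real.exp (u z) := funext hue
  have h4 : HasFDerivAt (fun z => Real.exp (u z)) (Real.exp (u z) • fderiv ℝ u z) z :=
    hd.hasFDerivAt.exp
  rw [h3, h4.fderiv]
  simp [smul_eq_mul]

lemma Dh_exp (u e : Cn 2 → ℝ) (hu : ContDiff ℝ ∞ u) (he : ContDiff ℝ ∞ e)
    (hue : ∀ z, e z = Real.exp (u z)) (j : Fin 2) :
    Dh j (toSm e he) = toSm e he * Dh j (toSm u hu) := by
  rw [Dh_def, Dh_def, Dv_exp u e hu he hue, Dv_exp u e hu he hue]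
  rw [mul_smul_comm, mul_sub, mul_smul_comm]

lemma Db_exp (u e : Cn 2 → ℝ) (hu : ContDiff ℝ ∞ u) (he : ContDiff ℝ ∞ e)
    (hue : ∀ z, e z = Real.exp (u z)) (j : Fin 2) :
    Db j (toSm e he) = toSm e he * Db j (toSm u hu) := by
  rw [Db_def, Db_def, Dv_exp u e hu he hue, Dv_exp u e hu he hue]
  rw [mul_smul_comm, mul_add, mul_smul_comm]

section main

variable (s : ℝ)

/-- the exponent -/
noncomputable def Qz (z : Cn 2) : ℝ := 2 * s * (‖z 0‖ ^ 2 - 1)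

/-- the exponential -/
noncomputable def Ee (z : Cn 2) : ℝ := Real.exp (2 * s * (‖z 0‖ ^ 2 - 1))

/-- the function `f` -/
noncomputable def Ff (z : Cn 2) : ℝ := ‖z 1‖ ^ 2 + Real.exp (2 * s * (‖z 0‖ ^ 2 - 1))

/-- its logarithm -/
noncomputable def Ll (z : Cn 2) : ℝ := Real.log (Ff s z)

lemma smooth_nsq (i : Fin 2) : ContDiff ℝ ∞ fun z : Cn 2 => ‖z i‖ ^ 2 := by
  have h : ContDiff ℝ ∞ fun z : Cn 2 => z i := by fun_prop
  exact h.norm_sq ℝ

lemma Qz_smooth : ContDiff ℝ ∞ (Qz s) := contDiff_const.mul ((smooth_nsq 0).sub contDiff_const)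

lemma Ee_smooth : ContDiff ℝ ∞ (Ee s) := (Qz_smooth s).exp

lemma Ff_smooth : ContDiff ℝ ∞ (Ff s) := (smooth_nsq 1).add (Ee_smooth s)

lemma Ee_pos (z : Cn 2) : 0 < Ee s z := Real.exp_pos _

lemma Ff_pos (z : Cn 2) : 0 < Ff s z := by
  have h1 := Ee_pos s z
  have h2 : Ff s z = ‖z 1‖ ^ 2 + Ee s z := rfl
  rw [h2]
  positivity

lemma Ll_smooth : ContDiff ℝ ∞ (Ll s) := (Ff_smooth s).log fun z => (Ff_pos s z).ne'

lemma Ff_eq (z : Cn 2) : Ff s z = Real.exp (Ll s z) := (Real.exp_log (Ff_pos s z)).symm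

/-- abbreviations -/
noncomputable def SQ : SR 2 := toSm (Qz s) (Qz_smooth s)
noncomputable def SE : SR 2 := toSm (Ee s) (Ee_smooth s)
noncomputable def SF : SR 2 := toSm (Ff s) (Ff_smooth s)
noncomputable def SL : SR 2 := toSm (Ll s) (Ll_smooth s)

lemma nsq (c : ℂ) : ((‖c‖ ^ 2 : ℝ) : ℂ) = c * star c := by
  rw [Complex.star_def, Complex.mul_conj, Complex.normSq_eq_norm_sq]

lemma SQ_eq : SQ s = ((2 * s : ℝ) : ℂ) • (Zc 0 * Zb 0 - 1) := by
  apply fn_ext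
  intro z
  rw [fn_smul, fn_sub, fn_mul, fn_Zc, fn_Zb, fn_one, ← nsq]
  show ((2 * s * (‖z 0‖ ^ 2 - 1) : ℝ) : ℂ) = _
  push_cast
  ring

lemma SF_eq : SF s = Zc 1 * Zb 1 + SE s := by
  apply fn_ext
  intro z
  rw [fn_add, fn_mul, fn_Zc, fn_Zb, ← nsq]
  show ((‖z 1‖ ^ 2 + Ee s z : ℝ) : ℂ) = ((‖z 1‖ ^ 2 : ℝ) : ℂ) + (Ee s z : ℂ)
  rw [Complex.ofReal_add]

lemma Dh_SQ (j : Fin 2) : Dh j (SQ s) = if j = 0 then ((2 * s : ℝ) : ℂ) • Zb 0 else 0 := by
  rw [SQ_eq, Derivation.map_smul, map_sub, Derivation.leibniz, Dh_Zb, Dh_Zc,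
    Derivation.map_one_eq_zero]
  fin_cases j <;> simp

lemma Db_SQ (j : Fin 2) : Db j (SQ s) = if j = 0 then ((2 * s : ℝ) : ℂ) • Zc 0 else 0 := by
  rw [SQ_eq, Derivation.map_smul, map_sub, Derivation.leibniz, Db_Zb, Db_Zc,
    Derivation.map_one_eq_zero]
  fin_cases j <;> simp

lemma Dh_SE (j : Fin 2) : Dh j (SE s) = if j = 0 then ((2 * s : ℝ) : ℂ) • (SE s * Zb 0) else 0 := by
  have h := Dh_exp (Qz s) (Ee s) (Qz_smooth s) (Ee_smooth s) (fun _ => rfl) j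
  have h2 : Dh j (SE s) = SE s * Dh j (SQ s) := h
  rw [h2, Dh_SQ]
  split_ifs
  · rw [mul_smul_comm]
  · rw [mul_zero]

lemma Db_SE (j : Fin 2) : Db j (SE s) = if j = 0 then ((2 * s : ℝ) : ℂ) • (SE s * Zc 0) else 0 := by
  have h := Db_exp (Qz s) (Ee s) (Qz_smooth s) (Ee_smooth s) (fun _ => rfl) j
  have h2 : Db j (SE s) = SE s * Db j (SQ s) := h
  rw [h2, Db_SQ]
  split_ifs
  · rw [mul_smul_comm]
  · rw [mul_zero]

lemma Dh_SF (j : Fin 2) : Dh j (SF s) =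
    if j = 0 then ((2 * s : ℝ) : ℂ) • (SE s * Zb 0) else Zb 1 := by
  rw [SF_eq, map_add, Derivation.leibniz, Dh_SE, Dh_Zb, Dh_Zc]
  fin_cases j <;> simp

lemma Db_SF (j : Fin 2) : Db j (SF s) =
    if j = 0 then ((2 * s : ℝ) : ℂ) • (SE s * Zc 0) else Zc 1 := by
  rw [SF_eq, map_add, Derivation.leibniz, Db_SE, Db_Zb, Db_Zc]
  fin_cases j <;> simp

lemma Dh_SF' (j : Fin 2) : Dh j (SF s) = SF s * Dh j (SL s) :=
  Dh_exp (Ll s) (Ff s) (Ll_smooth s) (Ff_smooth s) (Ff_eq s) j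

lemma Db_SF' (j : Fin 2) : Db j (SF s) = SF s * Db j (SL s) :=
  Db_exp (Ll s) (Ff s) (Ll_smooth s) (Ff_smooth s) (Ff_eq s) j

/-- the key relation -/
lemma key (j k : Fin 2) : SF s * SF s * Dh j (Db k (SL s)) =
    SF s * Dh j (Db k (SF s)) - Dh j (SF s) * Db k (SF s) := by
  have h1 : Dh j (Db k (SF s)) = Dh j (SF s * Db k (SL s)) := by rw [← Db_SF']
  have h2 : Dh j (SF s * Db k (SL s)) = SF s * Dh j (Db k (SL s)) + Db k (SL s) * Dh j (SF s) := by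
    rw [Derivation.leibniz]; rfl
  rw [h1, h2]
  have h3 := Db_SF' s k
  rw [h3]
  ring

lemma DD (j k : Fin 2) : Dh j (Db k (SF s)) =
    if k = 0 then (if j = 0 then ((2 * s : ℝ) : ℂ) • SE s +
      (((2 * s : ℝ) : ℂ) * ((2 * s : ℝ) : ℂ)) • (SE s * Zb 0 * Zc 0) else 0)
    else (if j = 0 then 0 else 1) := by
  rw [Db_SF]
  fin_cases k
  · simp only [Fin.zero_eta, Fin.isValue, ↓reduceIte]
    rw [Derivation.map_smul, Derivation.leibniz, Dh_SE, Dh_Zc]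
    fin_cases j
    · simp only [Fin.zero_eta, Fin.isValue, ↓reduceIte, smul_eq_mul, mul_one]
      rw [smul_add, mul_smul_comm, smul_smul]
      congr 2
      ring
    · simp
  · simp only [Fin.mk_one, Fin.isValue, one_ne_zero, ↓reduceIte]
    rw [Dh_Zc]
    fin_cases j <;> simp

lemma hess_L (z : Cn 2) (j k : Fin 2) : hess (Ll s) z j k = fn (Dh j (Db k (SL s))) z := by
  rw [Dh_apply, fn_Db]
  rfl

lemma hess_key (z : Cn 2) (j k : Fin 2) :
    (Ff s z : ℂ) ^ 2 * hess (Ll s) z j k =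
      (Ff s z : ℂ) * fn (Dh j (Db k (SF s))) z - fn (Dh j (SF s)) z * fn (Db k (SF s)) z := by
  have h := congrArg (fun g => fn g z) (key s j k)
  simp only [fn_mul, fn_sub] at h
  have h2 : fn (SF s) z = (Ff s z : ℂ) := rfl
  rw [h2] at h
  rw [hess_L, ← h, pow_two]

lemma Ff_cast (z : Cn 2) : (Ff s z : ℂ) = z 1 * star (z 1) + (Ee s z : ℂ) := by
  rw [← nsq, ← Complex.ofReal_add]
  rfl

lemma h00 (z : Cn 2) : (Ff s z : ℂ) ^ 2 * hess (Ll s) z 0 0 =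
    (Ee s z : ℂ) * (2 * s * Ff s z + 4 * s ^ 2 * (z 0 * star (z 0)) * (z 1 * star (z 1))) := by
  rw [hess_key, DD, Dh_SF, Db_SF]
  simp only [Fin.isValue, ↓reduceIte, fn_add, fn_smul, fn_mul, fn_Zc, fn_Zb]
  have h2 : fn (SE s) z = (Ee s z : ℂ) := rfl
  rw [h2]
  push_cast
  linear_combination (4 * (s : ℂ) ^ 2 * Ee s z * (z 0 * star (z 0))) * Ff_cast s z

lemma h11 (z : Cn 2) : (Ff s z : ℂ) ^ 2 * hess (Ll s) z 1 1 = (Ee s z : ℂ) := by
  rw [hess_key, DD, Dh_SF, Db_SF]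
  simp only [Fin.isValue, one_ne_zero, ↓reduceIte, fn_one, fn_Zc, fn_Zb]
  linear_combination Ff_cast s z

lemma h01 (z : Cn 2) : (Ff s z : ℂ) ^ 2 * hess (Ll s) z 0 1 =
    -(2 * s * Ee s z * star (z 0) * z 1) := by
  rw [hess_key, DD, Dh_SF, Db_SF]
  simp only [Fin.isValue, one_ne_zero, ↓reduceIte, fn_zero, fn_smul, fn_mul, fn_Zc, fn_Zb]
  have h2 : fn (SE s) z = (Ee s z : ℂ) := rfl
  rw [h2]
  push_cast
  ring

lemma h10 (z : Cn 2) : (Ff s z : ℂ) ^ 2 * hess (Ll s) z 1 0 =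
    -(2 * s * Ee s z * z 0 * star (z 1)) := by
  rw [hess_key, DD, Dh_SF, Db_SF]
  simp only [Fin.isValue, one_ne_zero, ↓reduceIte, fn_zero, fn_smul, fn_mul, fn_Zc, fn_Zb]
  have h2 : fn (SE s) z = (Ee s z : ℂ) := rfl
  rw [h2]
  push_cast
  ring

lemma det_L (z : Cn 2) : (hess (Ll s) z).det =
    ((2 * s * Ee s z ^ 2 / Ff s z ^ 3 : ℝ) : ℂ) := by
  have hf : (Ff s z : ℂ) ≠ 0 := by exact_mod_cast (Ff_pos s z).ne'
  have h : (Ff s z : ℂ) ^ 4 * (hess (Ll s) z).det = 2 * s * Ff s z * (Ee s z : ℂ) ^ 2 := by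
    rw [Matrix.det_fin_two]
    have e : (Ff s z : ℂ) ^ 4 * (hess (Ll s) z 0 0 * hess (Ll s) z 1 1 -
        hess (Ll s) z 0 1 * hess (Ll s) z 1 0) =
        ((Ff s z : ℂ) ^ 2 * hess (Ll s) z 0 0) * ((Ff s z : ℂ) ^ 2 * hess (Ll s) z 1 1) -
        ((Ff s z : ℂ) ^ 2 * hess (Ll s) z 0 1) * ((Ff s z : ℂ) ^ 2 * hess (Ll s) z 1 0) := by ring
    rw [e, h00, h11, h01, h10]
    ring
  push_cast
  rw [eq_div_iff (pow_ne_zero 3 hf)]
  have h2 : (Ff s z : ℂ) * ((hess (Ll s) z).det * (Ff s z : ℂ) ^ 3) =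
      (Ff s z : ℂ) * (2 * s * (Ee s z : ℂ) ^ 2) := by
    linear_combination h
  exact mul_left_cancel₀ hf h2

lemma psd_L (hs : 0 < s) (z : Cn 2) : (hess (Ll s) z).PosSemidef := by
  refine Matrix.PosSemidef.of_dotProduct_mulVec_nonneg
    (hess_isHermitian ((Ll_smooth s).of_le ENat.LEInfty.out) z) fun x => ?_
  have hf : (Ff s z : ℂ) ≠ 0 := by exact_mod_cast (Ff_pos s z).ne'
  have hfp := Ff_pos s z
  have hep := Ee_pos s z
  have h : star x ⬝ᵥ (hess (Ll s) z *ᵥ x) =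
      ((Ee s z * (2 * s * Ff s z * ‖x 0‖ ^ 2 + ‖x 1 - 2 * s * z 0 * star (z 1) * x 0‖ ^ 2) /
        Ff s z ^ 2 : ℝ) : ℂ) := by
    rw [Complex.ofReal_div, Complex.ofReal_pow, eq_div_iff (pow_ne_zero 2 hf)]
    have e : star x ⬝ᵥ (hess (Ll s) z *ᵥ x) * (Ff s z : ℂ) ^ 2 =
        star (x 0) * x 0 * ((Ff s z : ℂ) ^ 2 * hess (Ll s) z 0 0) +
        star (x 0) * x 1 * ((Ff s z : ℂ) ^ 2 * hess (Ll s) z 0 1) +
        star (x 1) * x 0 * ((Ff s z : ℂ) ^ 2 * hess (Ll s) z 1 0) +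
        star (x 1) * x 1 * ((Ff s z : ℂ) ^ 2 * hess (Ll s) z 1 1) := by
      simp only [dotProduct, Matrix.mulVec, Fin.sum_univ_two, Pi.star_apply]
      ring
    rw [e, h00, h11, h01, h10, Complex.ofReal_mul, Complex.ofReal_add, Complex.ofReal_mul, nsq, nsq]
    simp only [star_sub, star_mul', Complex.star_def, Complex.conj_ofReal, map_ofNat,
      Complex.conj_conj]
    push_cast
    ring
  rw [h]
  have h2 : (0 : ℝ) ≤ Ee s z * (2 * s * Ff s z * ‖x 0‖ ^ 2 +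
      ‖x 1 - 2 * s * z 0 * star (z 1) * x 0‖ ^ 2) / Ff s z ^ 2 := by positivity
  exact_mod_cast h2

end main

/-- **S_ps1** -/
theorem s_ps1 : S_ps1 := by
  intro s hs
  have hps : ps s = fun z => 1 / (2 * s) * Ll s z := rfl
  refine ⟨?_, ?_, ?_⟩
  · rw [hps]
    exact contDiff_const.mul (Ll_smooth s)
  · intro z
    rw [hps, hess_const_mul _ (Ll_smooth s)]
    have h := psd_L s hs z
    exact h.smul (by
      have : (0 : ℝ) ≤ 1 / (2 * s) := by positivity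
      exact_mod_cast this)
  · intro z
    have h1 : dt (ps s) z = (1 / (2 * s)) ^ 2 * dt (Ll s) z := by
      rw [hps]
      exact dt_smul _ (Ll_smooth s) z
    have h2 : dt (Ll s) z = 2 * s * Ee s z ^ 2 / Ff s z ^ 3 := by
      unfold dt
      rw [det_L, Complex.ofReal_re]
    rw [h1, h2]
    show _ = 1 / (2 * s) * Ee s z ^ 2 / Ff s z ^ 3
    field_simp

end Pool.Agent.H282.F4
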